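import Mathlib
import Pool.Agent.H964.QC.Stm

/-! # QC-M4 (helper100, for helper964): the fourth moment, raw form -/

set_option autoImplicit false

open MeasureTheory ProbabilityTheory Filter Finset
open scoped ENNReal

namespace Pool.Agent.H100.QC

open Pool.Agent.H964.QC

namespace M4

section int

variable {Ω : Type} [MeasurableSpace Ω] {P : Measure Ω}

lemma holder442 : ENNReal.HolderTriple 4 4 2 := by
  refine ⟨?_⟩
  have h : (4 : ℝ≥0∞) = 2 * 2 := by norm_num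
  rw [h, ENNReal.mul_inv (Or.inl (by norm_num)) (Or.inl (by norm_num)), ← two_mul, ← mul_assoc,
    ENNReal.mul_inv_cancel (by norm_num) (by norm_num), one_mul]

lemma mul2 {f g : Ω → ℝ} (hf : MemLp f 4 P) (hg : MemLp g 4 P) :
    MemLp (fun ω => f ω * g ω) 2 P := by
  have := holder442
  exact MemLp.mul' hg hf

lemma int22 {f g : Ω → ℝ} (hf : MemLp f 2 P) (hg : MemLp g 2 P) :
    Integrable (fun ω => f ω * g ω) P :=
  MemLp.integrable_mul hf hg

/-- the Cauchy-Schwarz inequality -/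
lemma cs {f g : Ω → ℝ} (hf0 : ∀ ω, 0 ≤ f ω) (hg0 : ∀ ω, 0 ≤ g ω) (hf : MemLp f 2 P)
    (hg : MemLp g 2 P) :
    ∫ ω, f ω * g ω ∂P ≤ Real.sqrt ((∫ ω, f ω ^ 2 ∂P) * ∫ ω, g ω ^ 2 ∂P) := by
  have h2 : ENNReal.ofReal 2 = 2 := by norm_num
  have h := integral_mul_le_Lp_mul_Lq_of_nonneg (μ := P) (f := f) (g := g)
    Real.HolderConjugate.two_two (Eventually.of_forall hf0) (Eventually.of_forall hg0)
    (by rw [h2]; exact hf) (by rw [h2]; exact hg)
  have e1 : ∫ ω, f ω ^ (2 : ℝ) ∂P = ∫ ω, f ω ^ 2 ∂P := by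
    simp only [Real.rpow_two]
  have e2 : ∫ ω, g ω ^ (2 : ℝ) ∂P = ∫ ω, g ω ^ 2 ∂P := by
    simp only [Real.rpow_two]
  rw [e1, e2, ← Real.sqrt_eq_rpow, ← Real.sqrt_eq_rpow, ← Real.sqrt_mul] at h
  · exact h
  · exact integral_nonneg fun ω => sq_nonneg _

end int

section alg

variable {V : Type} [Fintype V] [DecidableEq V] {C0 : ℝ} {N0 : ℕ}

lemma wt_succ (W : Wlk V C0 N0) (w : V → ℝ) (m : ℕ) (z : V) :
    wt W w (m + 1) z = ∑ y, wt W w m y * W.K 1 y z := by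
  unfold wt
  simp only [W.K_add, sum_mul, mul_sum]
  rw [sum_comm]
  refine sum_congr rfl fun y _ => sum_congr rfl fun x _ => ?_
  ring

lemma wt_sum (W : Wlk V C0 N0) (w : V → ℝ) (m : ℕ) : ∑ z, wt W w m z = ∑ z, w z := by
  unfold wt
  rw [sum_comm]
  refine sum_congr rfl fun x _ => ?_
  rw [← mul_sum, W.K_sum, mul_one]

lemma XX_eq (W : Wlk V C0 N0) (w : V → ℝ) (T : ℕ) (x : ℕ → V → ℝ) (j : ℕ) :
    XX W w T x j = ∑ z, wt W w (T - j) z * Zr W x j z - ∑ z, w z := by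
  unfold XX
  simp only [mul_sub, mul_one, sum_sub_distrib, wt_sum]

lemma XX_zero (W : Wlk V C0 N0) (w : V → ℝ) (T : ℕ) (x : ℕ → V → ℝ) : XX W w T x 0 = 0 := by
  unfold XX
  refine sum_eq_zero fun z _ => ?_
  simp [Zr]

lemma XX_succ (W : Wlk V C0 N0) (w : V → ℝ) (T : ℕ) (x : ℕ → V → ℝ) (j : ℕ) (h : j + 1 ≤ T) :
    XX W w T x (j + 1) =
      XX W w T x j + ∑ z, (wt W w (T - j) z * Zr W x j z) * x (j + 1) z := by
  rw [XX_eq, XX_eq]
  have hT : T - j = (T - (j + 1)) + 1 := by omega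
  have e1 : ∑ y, wt W w (T - (j + 1)) y * Zr W x (j + 1) y =
      ∑ z, wt W w (T - j) z * ((1 + x (j + 1) z) * Zr W x j z) := by
    rw [hT]
    simp only [wt_succ, Zr, mul_sum, sum_mul]
    rw [sum_comm]
    refine sum_congr rfl fun z _ => sum_congr rfl fun y _ => ?_
    ring
  rw [e1]
  have e2 : ∑ z, wt W w (T - j) z * ((1 + x (j + 1) z) * Zr W x j z) =
      ∑ z, wt W w (T - j) z * Zr W x j z +
        ∑ z, (wt W w (T - j) z * Zr W x j z) * x (j + 1) z := by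
    rw [← sum_add_distrib]
    refine sum_congr rfl fun z _ => ?_
    ring
  rw [e2]
  ring

lemma sm_zero (W : Wlk V C0 N0) (f : V → ℝ) (y : V) : sm W 0 f y = f y := by
  unfold sm
  simp only [W.K_zero]
  rw [sum_eq_single y]
  · rw [if_pos rfl, one_mul]
  · intro b _ hb
    rw [if_neg (Ne.symm hb), zero_mul]
  · intro h
    exact absurd (mem_univ y) h

end alg

section step

variable {V : Type} [Fintype V] [DecidableEq V] {C0 : ℝ} {N0 : ℕ}

omit [Fintype V] [DecidableEq V] in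
lemma meas_cut (j : ℕ) : Measurable (fun x : ℕ → V → ℝ => cut j x) := by
  apply measurable_pi_lambda
  intro n
  apply measurable_pi_lambda
  intro v
  unfold cut
  by_cases h : n ≤ j
  · simp only [h, if_true]
    exact (measurable_pi_apply v).comp (measurable_pi_apply n)
  · simp only [h, if_false]
    exact measurable_const

/-- the term of the sum -/
noncomputable def term (W : Wlk V C0 N0) {Ω : Type} [MeasurableSpace Ω] (P : Measure Ω)
    (s2 κ : ℝ) (η : ℕ → V → Ω → ℝ) (w : V → ℝ) (T j : ℕ) : ℝ :=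
  6 * s2 * ∑ z, wt W w (T - j) z ^ 2 * N4 W P η w T j 0 z
      + 4 * κ * s2 * ∑ z, wt W w (T - j) z ^ 3 * Real.sqrt (N4 W P η w T j 0 z * G4 W P η j 0 0 z z)
      + 3 * s2 ^ 2 * ∑ z, ∑ z', wt W w (T - j) z ^ 2 * wt W w (T - j) z' ^ 2 * G4 W P η j 0 0 z z'
      + κ * s2 * ∑ z, wt W w (T - j) z ^ 4 * G4 W P η j 0 0 z z

lemma step (hMEAS : S_MEAS) (hIND : S_IND) (hFRZ : S_FRZ) (hALG : S_ALG) (W : Wlk V C0 N0)
    {Ω : Type} [MeasurableSpace Ω] (P : Measure Ω) [IsProbabilityMeasure P] (s2 κ : ℝ)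
    (η : ℕ → V → Ω → ℝ) (hs2 : 0 ≤ s2) (hκ : 0 ≤ κ) (hN : Noise P s2 κ η) (w : V → ℝ)
    (hw : ∀ x, 0 ≤ w x) (T j : ℕ) (hj : j + 1 ≤ T) :
    ∫ ω, (XX W w T (cfg η ω) (j + 1)) ^ 4 ∂P ≤
      ∫ ω, (XX W w T (cfg η ω) j) ^ 4 ∂P + term W P s2 κ η w T j := by
  obtain ⟨-, hpos, hcut, hmZ, -, -, hcfg, hZ4, -, -, -⟩ := hMEAS V C0 N0 W Ω P s2 κ η hN
  obtain ⟨-, hind, -⟩ := hIND V Ω P s2 κ η hN j
  set u : V → ℝ := wt W w (T - j) with hu
  have hu0 : ∀ z, 0 ≤ u z := fun z => sum_nonneg fun x _ => mul_nonneg (hw x) (W.K_nonneg _ _ _)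
  let Z : V → Ω → ℝ := fun z ω => Zr W (cfg η ω) j z
  let A : Ω → ℝ := fun ω => XX W w T (cfg η ω) j
  have hgt : ∀ ω n v, -1 < cfg η ω n v := fun ω n v => hN.gt n v ω
  have hZ0 : ∀ z ω, 0 ≤ Z z ω := fun z ω => (hpos _ j z (hgt ω)).le
  have hZm : ∀ z, MemLp (Z z) 4 P := fun z => hZ4 j z
  have hXm : ∀ i, MemLp (fun ω => XX W w T (cfg η ω) i) 4 P := by
    intro i
    unfold XX
    exact memLp_finsetSum _ fun z _ => ((hZ4 i z).sub (memLp_const 1)).const_mul _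
  have hAm : MemLp A 4 P := hXm j
  have hcX : ∀ x : ℕ → V → ℝ, XX W w T (cut j x) j = XX W w T x j := by
    intro x
    unfold XX
    rw [← hcut x j]
  -- the function of the two blocks
  let f : (ℕ → V → ℝ) × (V → ℝ) → ℝ := fun p =>
    (XX W w T p.1 j + ∑ z, (u z * Zr W p.1 j z) * p.2 z) ^ 4
  have hf1 : ∀ ω, f (cut j (cfg η ω), fun v => η (j + 1) v ω) =
      (XX W w T (cfg η ω) (j + 1)) ^ 4 := by
    intro ω
    change (XX W w T (cut j (cfg η ω)) j +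
      ∑ z, (u z * Zr W (cut j (cfg η ω)) j z) * η (j + 1) z ω) ^ 4 = _
    rw [hcX, ← hcut (cfg η ω) j, XX_succ W w T _ j hj]
    rfl
  have hf2 : ∀ ω ω', f (cut j (cfg η ω), fun v => η (j + 1) v ω') =
      (A ω + ∑ z, (u z * Z z ω) * η (j + 1) z ω') ^ 4 := by
    intro ω ω'
    change (XX W w T (cut j (cfg η ω)) j +
      ∑ z, (u z * Zr W (cut j (cfg η ω)) j z) * η (j + 1) z ω') ^ 4 = _
    rw [hcX, ← hcut (cfg η ω) j]
  have hmX : Measurable (fun ω => cut j (cfg η ω)) := (meas_cut j).comp hcfg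
  have hmY : Measurable (fun ω (v : V) => η (j + 1) v ω) :=
    measurable_pi_lambda _ fun v => hN.meas (j + 1) v
  have hmf : Measurable f := by
    have e1 : Measurable (fun p : (ℕ → V → ℝ) × (V → ℝ) => XX W w T p.1 j) := by
      unfold XX
      exact measurable_sum _ fun z _ =>
        (((hmZ j z).comp measurable_fst).sub measurable_const).const_mul _
    have e2 : Measurable (fun p : (ℕ → V → ℝ) × (V → ℝ) =>
        ∑ z, (u z * Zr W p.1 j z) * p.2 z) :=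
      measurable_sum _ fun z _ =>
        (((hmZ j z).comp measurable_fst).const_mul _).mul
          ((measurable_pi_apply z).comp measurable_snd)
    exact (e1.add e2).pow_const 4
  have hint4 : ∀ g : Ω → ℝ, MemLp g 4 P → Integrable (fun ω => g ω ^ 4) P := by
    intro g hg
    have h1 := int22 (mul2 hg hg) (mul2 hg hg)
    have h2 : (fun ω => g ω ^ 4) = fun ω => g ω * g ω * (g ω * g ω) := by
      funext ω; ring
    rw [h2]
    exact h1
  have hintf : Integrable (fun ω => f (cut j (cfg η ω), fun v => η (j + 1) v ω)) P := by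
    simp only [hf1]
    exact hint4 _ (hXm (j + 1))
  obtain ⟨hfr1, hfr2, -⟩ := hFRZ Ω (ℕ → V → ℝ) (V → ℝ) ℝ P (fun ω => cut j (cfg η ω))
    (fun ω (v : V) => η (j + 1) v ω) f hmX hmY hmf hind hintf
  -- the bound
  let B1 : Ω → ℝ := fun ω => ∑ z, u z ^ 2 * (A ω ^ 2 * Z z ω ^ 2)
  let B2 : Ω → ℝ := fun ω => ∑ z, u z ^ 3 * (|A ω| * Z z ω * Z z ω ^ 2)
  let B3 : Ω → ℝ := fun ω => ∑ z, ∑ z', u z ^ 2 * u z' ^ 2 * (Z z ω ^ 2 * Z z' ω ^ 2)
  let B4 : Ω → ℝ := fun ω => ∑ z, u z ^ 4 * (Z z ω ^ 2 * Z z ω ^ 2)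
  have hbd : ∀ ω, ∫ ω', f (cut j (cfg η ω), fun v => η (j + 1) v ω') ∂P ≤
      A ω ^ 4 + 6 * s2 * B1 ω + 4 * κ * s2 * B2 ω + 3 * s2 ^ 2 * B3 ω + κ * s2 * B4 ω := by
    intro ω
    simp only [hf2]
    have h := (hALG V Ω P s2 κ η hN (j + 1) (A ω) 0 (fun z => u z * Z z ω)
      (fun z => u z * Z z ω) (fun z => mul_nonneg (hu0 z) (hZ0 z ω))
      (fun z => mul_nonneg (hu0 z) (hZ0 z ω))).2.2
    refine h.trans (le_of_eq ?_)
    have e1 : A ω ^ 2 * ∑ z, (u z * Z z ω) ^ 2 = B1 ω := by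
      change _ = ∑ z, u z ^ 2 * (A ω ^ 2 * Z z ω ^ 2)
      rw [mul_sum]
      exact sum_congr rfl fun z _ => by ring
    have e2 : |A ω| * ∑ z, (u z * Z z ω) ^ 3 = B2 ω := by
      change _ = ∑ z, u z ^ 3 * (|A ω| * Z z ω * Z z ω ^ 2)
      rw [mul_sum]
      exact sum_congr rfl fun z _ => by ring
    have e3 : ∑ z, ∑ z', (u z * Z z ω) ^ 2 * (u z' * Z z' ω) ^ 2 = B3 ω :=
      sum_congr rfl fun z _ => sum_congr rfl fun z' _ => by ring
    have e4 : ∑ z, (u z * Z z ω) ^ 4 = B4 ω := sum_congr rfl fun z _ => by ring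
    rw [e1, e2, e3, e4]
  -- integrability of the bound
  have hAA : MemLp (fun ω => A ω * A ω) 2 P := mul2 hAm hAm
  have hZZ : ∀ z, MemLp (fun ω => Z z ω * Z z ω) 2 P := fun z => mul2 (hZm z) (hZm z)
  have hA2 : MemLp (fun ω => A ω ^ 2) 2 P := by
    simpa only [sq] using hAA
  have hZ2 : ∀ z, MemLp (fun ω => Z z ω ^ 2) 2 P := fun z => by
    simpa only [sq] using hZZ z
  have hAZ : ∀ z, MemLp (fun ω => |A ω| * Z z ω) 2 P := fun z => mul2 hAm.abs (hZm z)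
  have i0 : Integrable (fun ω => A ω ^ 4) P := hint4 A hAm
  have i1 : ∀ z, Integrable (fun ω => A ω ^ 2 * Z z ω ^ 2) P := fun z => int22 hA2 (hZ2 z)
  have i2 : ∀ z, Integrable (fun ω => |A ω| * Z z ω * Z z ω ^ 2) P :=
    fun z => int22 (hAZ z) (hZ2 z)
  have i3 : ∀ z z', Integrable (fun ω => Z z ω ^ 2 * Z z' ω ^ 2) P :=
    fun z z' => int22 (hZ2 z) (hZ2 z')
  have I1 : Integrable B1 P := integrable_finsetSum _ fun z _ => (i1 z).const_mul _
  have I2 : Integrable B2 P := integrable_finsetSum _ fun z _ => (i2 z).const_mul _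
  have I3 : Integrable B3 P := integrable_finsetSum _ fun z _ =>
    integrable_finsetSum _ fun z' _ => (i3 z z').const_mul _
  have I4 : Integrable B4 P := integrable_finsetSum _ fun z _ => (i3 z z).const_mul _
  have J1 : Integrable (fun ω => A ω ^ 4 + 6 * s2 * B1 ω) P := i0.add (I1.const_mul _)
  have J2 : Integrable (fun ω => A ω ^ 4 + 6 * s2 * B1 ω + 4 * κ * s2 * B2 ω) P :=
    J1.add (I2.const_mul _)
  have J3 : Integrable (fun ω => A ω ^ 4 + 6 * s2 * B1 ω + 4 * κ * s2 * B2 ω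
      + 3 * s2 ^ 2 * B3 ω) P := J2.add (I3.const_mul _)
  have J4 : Integrable (fun ω => A ω ^ 4 + 6 * s2 * B1 ω + 4 * κ * s2 * B2 ω
      + 3 * s2 ^ 2 * B3 ω + κ * s2 * B4 ω) P := J3.add (I4.const_mul _)
  have hmain : ∫ ω, (XX W w T (cfg η ω) (j + 1)) ^ 4 ∂P ≤
      ∫ ω, (A ω ^ 4 + 6 * s2 * B1 ω + 4 * κ * s2 * B2 ω + 3 * s2 ^ 2 * B3 ω
        + κ * s2 * B4 ω) ∂P := by
    have e0 : ∫ ω, (XX W w T (cfg η ω) (j + 1)) ^ 4 ∂P =
        ∫ ω, f (cut j (cfg η ω), fun v => η (j + 1) v ω) ∂P := by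
      simp only [hf1]
    rw [e0, hfr1]
    exact integral_mono hfr2 J4 hbd
  have hsplit : ∫ ω, (A ω ^ 4 + 6 * s2 * B1 ω + 4 * κ * s2 * B2 ω + 3 * s2 ^ 2 * B3 ω
        + κ * s2 * B4 ω) ∂P = ∫ ω, A ω ^ 4 ∂P + 6 * s2 * ∫ ω, B1 ω ∂P
        + 4 * κ * s2 * ∫ ω, B2 ω ∂P + 3 * s2 ^ 2 * ∫ ω, B3 ω ∂P + κ * s2 * ∫ ω, B4 ω ∂P := by
    rw [integral_add J3 (I4.const_mul _), integral_add J2 (I3.const_mul _),
      integral_add J1 (I2.const_mul _), integral_add i0 (I1.const_mul _)]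
    simp only [integral_const_mul]
  -- the four integrals
  have hN4 : ∀ z, N4 W P η w T j 0 z = ∫ ω, A ω ^ 2 * Z z ω ^ 2 ∂P := by
    intro z
    unfold N4
    simp only [sm_zero]
    rfl
  have hG4 : ∀ z z', G4 W P η j 0 0 z z' = ∫ ω, Z z ω ^ 2 * Z z' ω ^ 2 ∂P := by
    intro z z'
    unfold G4
    simp only [sm_zero]
    rfl
  have k1 : ∫ ω, B1 ω ∂P = ∑ z, u z ^ 2 * N4 W P η w T j 0 z := by
    change ∫ ω, ∑ z, u z ^ 2 * (A ω ^ 2 * Z z ω ^ 2) ∂P = _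
    rw [integral_finsetSum _ fun z _ => (i1 z).const_mul _]
    simp only [integral_const_mul, hN4]
  have k2 : ∫ ω, B2 ω ∂P ≤
      ∑ z, u z ^ 3 * Real.sqrt (N4 W P η w T j 0 z * G4 W P η j 0 0 z z) := by
    change ∫ ω, ∑ z, u z ^ 3 * (|A ω| * Z z ω * Z z ω ^ 2) ∂P ≤ _
    rw [integral_finsetSum _ fun z _ => (i2 z).const_mul _]
    refine sum_le_sum fun z _ => ?_
    rw [integral_const_mul]
    refine mul_le_mul_of_nonneg_left ?_ (pow_nonneg (hu0 z) 3)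
    have h := cs (P := P) (f := fun ω => |A ω| * Z z ω) (g := fun ω => Z z ω ^ 2)
      (fun ω => mul_nonneg (abs_nonneg _) (hZ0 z ω)) (fun ω => sq_nonneg _) (hAZ z) (hZ2 z)
    refine h.trans (le_of_eq ?_)
    have e1 : ∫ ω, (|A ω| * Z z ω) ^ 2 ∂P = N4 W P η w T j 0 z := by
      rw [hN4]
      refine integral_congr_ae (Eventually.of_forall fun ω => ?_)
      change (|A ω| * Z z ω) ^ 2 = A ω ^ 2 * Z z ω ^ 2
      rw [mul_pow, sq_abs]
    have e2 : ∫ ω, (Z z ω ^ 2) ^ 2 ∂P = G4 W P η j 0 0 z z := by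
      rw [hG4]
      refine integral_congr_ae (Eventually.of_forall fun ω => ?_)
      change (Z z ω ^ 2) ^ 2 = Z z ω ^ 2 * Z z ω ^ 2
      ring
    rw [e1, e2]
  have k3 : ∫ ω, B3 ω ∂P = ∑ z, ∑ z', u z ^ 2 * u z' ^ 2 * G4 W P η j 0 0 z z' := by
    change ∫ ω, ∑ z, ∑ z', u z ^ 2 * u z' ^ 2 * (Z z ω ^ 2 * Z z' ω ^ 2) ∂P = _
    rw [integral_finsetSum _ fun z _ =>
      integrable_finsetSum _ fun z' _ => (i3 z z').const_mul _]
    refine sum_congr rfl fun z _ => ?_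
    rw [integral_finsetSum _ fun z' _ => (i3 z z').const_mul _]
    simp only [integral_const_mul, hG4]
  have k4 : ∫ ω, B4 ω ∂P = ∑ z, u z ^ 4 * G4 W P η j 0 0 z z := by
    change ∫ ω, ∑ z, u z ^ 4 * (Z z ω ^ 2 * Z z ω ^ 2) ∂P = _
    rw [integral_finsetSum _ fun z _ => (i3 z z).const_mul _]
    simp only [integral_const_mul, hG4]
  have hk2 : 4 * κ * s2 * ∫ ω, B2 ω ∂P ≤ 4 * κ * s2 *
      ∑ z, u z ^ 3 * Real.sqrt (N4 W P η w T j 0 z * G4 W P η j 0 0 z z) :=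
    mul_le_mul_of_nonneg_left k2 (by positivity)
  rw [hsplit, k1, k3, k4] at hmain
  unfold term
  rw [← hu]
  linarith

end step

end M4

open M4 in
theorem t_M4 : S_MEAS → S_IND → S_FRZ → S_ALG → S_OV → S_M4 := by
  intro hMEAS hIND hFRZ hALG _ V _ _ C0 N0 W Ω _ P _ s2 κ η hs2 hκ hN w hw T
  have key : ∀ j, j ≤ T → ∫ ω, (XX W w T (cfg η ω) j) ^ 4 ∂P ≤
      ∑ i ∈ Finset.range j, term W P s2 κ η w T i := by
    intro j
    induction j with
    | zero =>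
      intro _
      rw [Finset.sum_range_zero]
      have : ∀ ω, (XX W w T (cfg η ω) 0) ^ 4 = 0 := by
        intro ω
        rw [XX_zero]; norm_num
      simp only [this, integral_zero, le_refl]
    | succ j ih =>
      intro hj
      rw [Finset.sum_range_succ]
      exact (step hMEAS hIND hFRZ hALG W P s2 κ η hs2 hκ hN w hw T j hj).trans
        (add_le_add (ih (by omega)) le_rfl)
  exact key T le_rfl

end Pool.Agent.H100.QC
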