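import Pool.Agent.H815.QC.Stm

/-!
# Project QC, P9: the standard subgroup of the star of a class normalizes the two factors
-/

set_option autoImplicit false

namespace Pool.Agent.H100.QC

open Pool.Agent.Y110.FJ Pool.Agent.T2H65.GP Pool.Agent.H815.QC

section

variable {V : Type} {Λ : SimpleGraph V} {B : V → Type} [∀ v, Group (B v)]

/-- if every vertex of `S` is in `T` or adjacent to all the vertices of `T` then `std S` normalizes `std T` -/
theorem std_le_normalizer {S T : V → Prop} (h : ∀ v, S v → T v ∨ ∀ t, T t → Λ.Adj v t) :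
    std Λ B S ≤ Subgroup.normalizer (std Λ B T : Set (GrP Λ B)) := by
  refine std_le Λ B fun v hv => ?_
  rcases h v hv with h1 | h1
  · exact (vg_le_std Λ B h1).trans Subgroup.le_normalizer
  · intro x hx
    have hx' : x ∈ std Λ B (fun u => u = v) := vg_le_std Λ B (T := fun u => u = v) rfl hx
    have hadj : ∀ t s, t = v → T s → Λ.Adj t s := by
      rintro t s rfl hs
      exact h1 s hs
    rw [Subgroup.mem_normalizer_iff]
    intro y
    constructor
    · intro hy
      rw [std_comm Λ B (T := fun u => u = v) (T' := T) hadj hx' hy, mul_inv_cancel_right]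
      exact hy
    · intro hy
      have h2 := std_comm Λ B (T := fun u => u = v) (T' := T) hadj hx' hy
      rw [inv_mul_cancel_right] at h2
      have h3 : x * y * x⁻¹ = y := mul_left_cancel h2
      rwa [h3] at hy

theorem pb_mul {N : Type} [Group N] (α : N →* GrP Λ B) {T : V → Prop} (g : GrP Λ B) {p : GrP Λ B}
    (hp : p ∈ Subgroup.normalizer (std Λ B T : Set (GrP Λ B))) :
    pb Λ B α (g * p) T = pb Λ B α g T := by
  ext n
  rw [mem_pb, mem_pb]
  have e : (g * p)⁻¹ * α n * (g * p) = p⁻¹ * (g⁻¹ * α n * g) * p := by group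
  rw [e]
  exact (Subgroup.mem_normalizer_iff''.1 hp (g⁻¹ * α n * g)).symm

end

theorem P9_proof : Pool.Agent.H815.QC.S_P9 := by
  intro N _ α v g p hp
  have hadj : ∀ a b : V1, cl v a → nb v b → Γ1.Adj a b := by
    intro a b ha hb
    have ha' : a.1 = v := ha
    subst ha'
    exact hb
  constructor
  · refine pb_mul α g (std_le_normalizer (S := stv v) (T := cl v) ?_ hp)
    intro u hu
    rcases hu with hu | hu
    · exact Or.inl hu
    · exact Or.inr fun t ht => (hadj t u ht hu).symm
  · refine pb_mul α g (std_le_normalizer (S := stv v) (T := nb v) ?_ hp)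
    intro u hu
    rcases hu with hu | hu
    · exact Or.inr fun t ht => hadj u t hu ht
    · exact Or.inl hu

end Pool.Agent.H100.QC
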